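import Pool.Agent.H79.QN.Stmts

/-!
# Row AC5 of the board `qn`: a window of a thick arc
-/

set_option autoImplicit false

namespace Pool.Agent.H79.QN

open Finset

/-- the case where the direction is already oriented -/
theorem ac5_aux (h3 : S_AC3) (z₀ : ℤ × ℤ) (r K l : ℝ) (W : Finset (ℤ × ℤ)) (hA : AH z₀ r K l)
    (hM : ∀ z ∈ W, Mem z₀ K l z) (hW : 3 ≤ W.card) (d b : ℤ × ℤ) (hd : 1 ≤ nsq d)
    (f : ℤ × ℤ → ℤ) (hf : ∀ z ∈ W, z.1 = b.1 + f z * d.1 ∧ z.2 = b.2 + f z * d.2) :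
    (nsq d : ℝ) * (W.card : ℝ) ^ 2 ≤ 72 * K ∧ ∀ z ∈ W, |(dot z d : ℝ)| * W.card ≤ 20 * K := by
  have hinj : Set.InjOn f W := by
    intro z hz z' hz' h
    obtain ⟨a1, a2⟩ := hf z hz
    obtain ⟨b1, b2⟩ := hf z' hz'
    rw [h] at a1 a2
    exact Prod.ext (a1.trans b1.symm) (a2.trans b2.symm)
  have hcard : (W.image f).card = W.card := Finset.card_image_of_injOn hinj
  have hK : 0 ≤ K := le_trans zero_le_one hA.K1
  have hval : ∀ z ∈ W, (nsq d : ℝ) * (f z : ℝ) ^ 2 + 2 * (dot b d : ℝ) * f z = nsq z - nsq b := by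
    intro z hz
    obtain ⟨a1, a2⟩ := hf z hz
    have : nsq d * (f z) ^ 2 + 2 * dot b d * f z = nsq z - nsq b := by
      simp only [nsq, dot]
      rw [a1, a2]
      ring
    exact_mod_cast this
  have hdot : ∀ z ∈ W, (nsq d : ℝ) * (f z : ℝ) + dot b d = dot z d := by
    intro z hz
    obtain ⟨a1, a2⟩ := hf z hz
    have : nsq d * (f z) + dot b d = dot z d := by
      simp only [nsq, dot]
      rw [a1, a2]
      ring
    exact_mod_cast this
  have hmain := h3 (W.image f) (nsq d) (dot b d) (2 * K) (by exact_mod_cast hd) (by linarith)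
    (by rw [hcard]; exact hW) (by
      intro i hi j hj
      obtain ⟨z, hz, rfl⟩ := Finset.mem_image.1 hi
      obtain ⟨z', hz', rfl⟩ := Finset.mem_image.1 hj
      rw [hval z hz, hval z' hz']
      have e1 := abs_le.1 (hM z hz).b
      have e2 := abs_le.1 (hM z' hz').b
      rw [abs_le]
      constructor <;> linarith [e1.1, e1.2, e2.1, e2.2])
  rw [hcard] at hmain
  refine ⟨by linarith [hmain.1], fun z hz => ?_⟩
  have h4 := hmain.2 (f z) (Finset.mem_image_of_mem f hz)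
  rw [hdot z hz, abs_mul, abs_two] at h4
  linarith

theorem ac5 (h1 : S_AC1) (h2 : S_AC2) (h3 : S_AC3) (h4 : S_AC4) : S_AC5 := by
  intro z₀ r K l W hA hM hW hcr
  obtain ⟨d, b, hcop, hlin⟩ := h4 W (by omega) (fun z₁ hz₁ z₂ hz₂ z₃ hz₃ =>
    h2 z₀ r K l z₁ z₂ z₃ hA (hM _ hz₁) (hM _ hz₂) (hM _ hz₃) (hcr _ hz₂ _ hz₁) (hcr _ hz₃ _ hz₁))
  choose! f hf using hlin
  have hr : 0 < r := lt_of_lt_of_le zero_lt_one hA.r1
  have hd : 1 ≤ nsq d := by
    have h0 : nsq d ≠ 0 := by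
      intro h0
      have e1 : d.1 = 0 := by simp only [nsq] at h0; nlinarith [sq_nonneg d.1, sq_nonneg d.2]
      have e2 : d.2 = 0 := by simp only [nsq] at h0; nlinarith [sq_nonneg d.1, sq_nonneg d.2]
      rw [e1, e2] at hcop
      exact not_isCoprime_zero_zero hcop
    have h5 : 0 ≤ nsq d := by simp only [nsq]; positivity
    omega
  -- two different points
  obtain ⟨z, hz, z', hz', hne⟩ := Finset.one_lt_card.1 (by omega : 1 < W.card)
  have hj : f z - f z' ≠ 0 := by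
    intro h
    apply hne
    have h' : f z = f z' := by omega
    obtain ⟨a1, a2⟩ := hf z hz
    obtain ⟨b1, b2⟩ := hf z' hz'
    rw [h'] at a1 a2
    exact Prod.ext (a1.trans b1.symm) (a2.trans b2.symm)
  have hsq : 1 ≤ (f z - f z') ^ 2 := by
    have : 0 < (f z - f z') ^ 2 := by positivity
    omega
  obtain ⟨a1, a2⟩ := hf z hz
  obtain ⟨b1, b2⟩ := hf z' hz'
  have hn : nsq (z - z') = (f z - f z') ^ 2 * nsq d := by
    simp only [nsq, Prod.fst_sub, Prod.snd_sub]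
    rw [a1, a2, b1, b2]
    ring
  have hc : crs z₀ (z - z') = (f z - f z') * crs z₀ d := by
    simp only [crs, Prod.fst_sub, Prod.snd_sub]
    rw [a1, a2, b1, b2]
    ring
  have e1 := h1 z₀ r K l z z' hA (hM z hz) (hM z' hz')
  have e2 := hcr z hz z' hz'
  have hn1 : nsq d ≤ nsq (z - z') := by
    rw [hn]
    nlinarith
  have hnR : (nsq d : ℝ) ≤ nsq (z - z') := by exact_mod_cast hn1
  have hdR : (1 : ℝ) ≤ nsq d := by exact_mod_cast hd
  have hc0 : crs z₀ d ≠ 0 := by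
    intro h0
    rw [hc, h0, mul_zero] at e1
    simp only [Int.cast_zero] at e1
    have : 0 < r ^ 2 * (nsq (z - z') : ℝ) := by
      have : (0 : ℝ) < nsq (z - z') := by linarith
      positivity
    nlinarith
  have hsize : (nsq d : ℝ) ≤ r ^ (2 / 3 : ℝ) := by
    have e3 : (crs z₀ (z - z') : ℝ) ^ 2 ≤ (r * (r ^ (1 / 3 : ℝ) / 2)) ^ 2 := by
      rw [← sq_abs]
      exact pow_le_pow_left₀ (abs_nonneg _) e2 2
    have e4 : (r ^ (1 / 3 : ℝ)) ^ 2 = r ^ (2 / 3 : ℝ) := by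
      rw [← Real.rpow_natCast, ← Real.rpow_mul hr.le]
      norm_num
    have e5 : r ^ 2 * (nsq (z - z') : ℝ) ≤ r ^ 2 * r ^ (2 / 3 : ℝ) := by
      calc r ^ 2 * (nsq (z - z') : ℝ) ≤ 1.21 * (crs z₀ (z - z') : ℝ) ^ 2 := e1
        _ ≤ 1.21 * (r * (r ^ (1 / 3 : ℝ) / 2)) ^ 2 := by linarith
        _ = 1.21 / 4 * (r ^ 2 * (r ^ (1 / 3 : ℝ)) ^ 2) := by ring
        _ = 1.21 / 4 * (r ^ 2 * r ^ (2 / 3 : ℝ)) := by rw [e4]
        _ ≤ 1 * (r ^ 2 * r ^ (2 / 3 : ℝ)) :=
          mul_le_mul_of_nonneg_right (by norm_num) (by positivity)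
        _ = r ^ 2 * r ^ (2 / 3 : ℝ) := one_mul _
    exact hnR.trans (le_of_mul_le_mul_left e5 (by positivity))
  rcases lt_or_gt_of_ne hc0 with hneg | hpos
  · have hnn : nsq (-d) = nsq d := by simp [nsq]
    have hres := ac5_aux h3 z₀ r K l W hA hM hW (-d) b (by rw [hnn]; exact hd) (fun z => -f z) (by
      intro z hz
      obtain ⟨a1, a2⟩ := hf z hz
      constructor
      · simp only [Prod.fst_neg]
        rw [a1]
        ring
      · simp only [Prod.snd_neg]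
        rw [a2]
        ring)
    refine ⟨-d, ?_, ?_, hres.1, by rw [hnn]; exact hsize, hres.2⟩
    · exact hcop.neg_neg
    · have : crs z₀ (-d) = - crs z₀ d := by simp only [crs, Prod.fst_neg, Prod.snd_neg]; ring
      rw [this]
      omega
  · have hres := ac5_aux h3 z₀ r K l W hA hM hW d b hd f hf
    exact ⟨d, hcop, hpos, hres.1, hsize, hres.2⟩

end Pool.Agent.H79.QN
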